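import Mathlib.Data.Stream.Init
import Mathlib.Data.Finset.Basic
import Mathlib.Data.Set.Finite.List
import Mathlib.Data.Fin.VecNotation
import Mathlib.ModelTheory.FinitelyGenerated
import Mathlib.ModelTheory.ElementaryMaps
import Mathlib.Tactic.FinCases

/-!
# Algebras of prefix replacement maps
-/

namespace Q202.Iso

open FirstOrder FirstOrder.Language Stream'

/-- Infinite ternary sequences. -/
abbrev Z : Type := Stream' (Fin 3)

/-- `f` is a prefix replacement on all cones of level `l`. -/
def LP {X : Type} (l : ℕ) (f : Z → X × Z) : Prop :=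
  ∀ w : List (Fin 3), w.length = l → ∃ (x : X) (v : List (Fin 3)), ∀ z : Z,
    f (w ++ₛ z) = (x, v ++ₛ z)

theorem LP.succ {X : Type} {l : ℕ} {f : Z → X × Z} (h : LP l f) : LP (l + 1) f := by
  intro w hw
  obtain ⟨x, v, hv⟩ := h (w.take l) (by simp [hw])
  refine ⟨x, v ++ w.drop l, fun z => ?_⟩
  have : w ++ₛ z = w.take l ++ₛ (w.drop l ++ₛ z) := by
    rw [← append_append_stream, List.take_append_drop]
  rw [this, hv, append_append_stream]

theorem LP.mono {X : Type} {l l' : ℕ} {f : Z → X × Z} (h : LP l f) (hl : l ≤ l') : LP l' f := by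
  induction hl with
  | refl => exact h
  | step _ ih => exact ih.succ

/-- Prefix replacement maps into `X × Z`: the free Cantor algebra (with a ternary operation) on
`X`. -/
def Fr (X : Type) : Type := {f : Z → X × Z // ∃ l, LP l f}

theorem Fr.ext {X : Type} {f g : Fr X} (h : ∀ z, f.1 z = g.1 z) : f = g :=
  Subtype.ext (funext h)

/-- Restriction to the `j`-th cone of level one. -/
def al {X : Type} (j : Fin 3) (f : Fr X) : Fr X :=
  ⟨fun z => f.1 (j :: z), by
    obtain ⟨l, hl⟩ := f.2
    refine ⟨l, fun w hw => ?_⟩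
    obtain ⟨x, v, hv⟩ := hl.succ (j :: w) (by simp [hw])
    exact ⟨x, v, hv⟩⟩

/-- Gluing of three maps. -/
def la {X : Type} (g : Fin 3 → Fr X) : Fr X :=
  ⟨fun z => (g z.head).1 z.tail, by
    choose l hl using fun i => (g i).2
    refine ⟨max (l 0) (max (l 1) (l 2)) + 1, fun w hw => ?_⟩
    rcases w with _ | ⟨j, w⟩
    · simp at hw
    · have h1 : LP (max (l 0) (max (l 1) (l 2))) (g j).1 := by
        apply (hl j).mono
        fin_cases j <;> simp
      exact h1 w (by simpa using hw)⟩

/-- Push forward along a map of index sets. -/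
def mp {X X' : Type} (u : X → X') (f : Fr X) : Fr X' :=
  ⟨fun z => (u (f.1 z).1, (f.1 z).2), by
    obtain ⟨l, hl⟩ := f.2
    refine ⟨l, fun w hw => ?_⟩
    obtain ⟨x, v, hv⟩ := hl w hw
    refine ⟨u x, v, fun z => ?_⟩
    change (u (f.1 (w ++ₛ z)).1, (f.1 (w ++ₛ z)).2) = _
    rw [show f.1 (w ++ₛ z) = (x, v ++ₛ z) from hv z]⟩

/-- The generators. -/
def de {X : Type} (x : X) : Fr X :=
  ⟨fun z => (x, z), 0, fun w hw => ⟨x, [], fun z => by
    rw [List.length_eq_zero_iff] at hw
    rw [hw]⟩⟩

theorem mp_al {X X' : Type} (u : X → X') (j : Fin 3) (f : Fr X) :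
    mp u (al j f) = al j (mp u f) := rfl

theorem mp_la {X X' : Type} (u : X → X') (g : Fin 3 → Fr X) :
    mp u (la g) = la (fun i => mp u (g i)) := rfl

theorem mp_mp {X X' X'' : Type} (u : X → X') (u' : X' → X'') (f : Fr X) :
    mp u' (mp u f) = mp (u' ∘ u) f := rfl

theorem mp_id {X : Type} (f : Fr X) : mp id f = f := rfl

theorem la_al {X : Type} (f : Fr X) : la (fun j => al j f) = f := by
  apply Fr.ext
  intro z
  change f.1 (z.head :: z.tail) = f.1 z
  rw [Stream'.eta]

/-- The support. -/
def supp {X : Type} (f : Fr X) : Set X := Set.range (fun z => (f.1 z).1)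

theorem supp_finite {X : Type} (f : Fr X) : (supp f).Finite := by
  obtain ⟨l, hl⟩ := f.2
  refine ((List.finite_length_eq (Fin 3) l).image
    (fun w => (f.1 (w ++ₛ Stream'.const 0)).1)).subset ?_
  rintro _ ⟨z, rfl⟩
  refine ⟨take l z, length_take l z, ?_⟩
  obtain ⟨x, v, hv⟩ := hl (take l z) (length_take l z)
  have h2 := hv (drop l z)
  rw [append_take_drop] at h2
  have h3 := hv (Stream'.const 0)
  change (f.1 _).1 = (f.1 _).1
  rw [show f.1 z = _ from h2, show f.1 (take l z ++ₛ Stream'.const 0) = _ from h3]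

theorem mp_congr {X X' : Type} (u u' : X → X') (f : Fr X) (h : ∀ x ∈ supp f, u x = u' x) :
    mp u f = mp u' f := by
  apply Fr.ext
  intro z
  change (u (f.1 z).1, (f.1 z).2) = (u' (f.1 z).1, (f.1 z).2)
  rw [h _ ⟨z, rfl⟩]

/-- Induction principle: everything is generated by the `de x`, `x ∈ supp f`. -/
theorem gen_induction {X : Type} (P : Fr X → Prop)
    (hal : ∀ j f, P f → P (al j f)) (hla : ∀ g : Fin 3 → Fr X, (∀ j, P (g j)) → P (la g))
    (f : Fr X) (hde : ∀ x ∈ supp f, P (de x)) : P f := by
  obtain ⟨l, hl⟩ := f.2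
  induction l generalizing f with
  | zero =>
    obtain ⟨x, v, hv⟩ := hl [] rfl
    have hx : P (de x) := hde x ⟨Stream'.const 0, by
      change (f.1 _).1 = x
      rw [show f.1 (Stream'.const 0) = (x, v ++ₛ Stream'.const 0) from hv _]⟩
    -- build up from the generator
    have key : ∀ v : List (Fin 3), ∀ h : ∃ l, LP l (fun z : Z => (x, v ++ₛ z)),
        P ⟨fun z => (x, v ++ₛ z), h⟩ := by
      intro v
      induction v using List.reverseRecOn with
      | nil => intro h; exact hx
      | append_singleton v c ih =>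
        intro h
        have h' : ∃ l, LP l (fun z : Z => (x, v ++ₛ z)) :=
          ⟨0, fun w hw => ⟨x, v, fun z => by
            rw [List.length_eq_zero_iff] at hw
            rw [hw]; rfl⟩⟩
        have h2 := hal c _ (ih h')
        have h3 : (⟨fun z => (x, (v ++ [c]) ++ₛ z), h⟩ : Fr X) =
            al c (⟨fun z => (x, v ++ₛ z), h'⟩ : Fr X) := by
          apply Fr.ext
          intro z
          change (x, (v ++ [c]) ++ₛ z) = (x, v ++ₛ (c :: z))
          rw [append_append_stream]
          rfl
        rw [h3]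
        exact h2
    have : f = ⟨fun z => (x, v ++ₛ z), ⟨0, fun w hw => ⟨x, v, fun z => by
            rw [List.length_eq_zero_iff] at hw
            rw [hw]; rfl⟩⟩⟩ := by
      apply Fr.ext
      intro z
      exact hv z
    rw [this]
    exact key v _
  | succ l ih =>
    rw [← la_al f]
    apply hla
    intro j
    apply ih
    · rintro x ⟨z, rfl⟩
      exact hde _ ⟨j :: z, rfl⟩
    · intro w hw
      obtain ⟨x, v, hv⟩ := hl (j :: w) (by simp [hw])
      exact ⟨x, v, hv⟩

/-! ### The language -/

/-- The operation symbols. -/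
inductive Fn : ℕ → Type
  | al (j : Fin 3) : Fn 1
  | la : Fn 3
  | t (i : ℕ) : Fn 1

/-- The algebraic language with three unary symbols `al j`, a ternary symbol `la` and unary
symbols `t i`, `i ∈ ℕ`. -/
def Lg : Language.{0, 0} := ⟨Fn, fun _ => Empty⟩

instance : Lg.IsAlgebraic := fun _ => inferInstanceAs (IsEmpty Empty)

instance : Countable Lg.Symbols := by
  have h1 : Countable (Σ n, Lg.Functions n) := by
    let f : (Σ n, Lg.Functions n) → ℕ × ℕ := fun s => match s with
      | ⟨_, Fn.al j⟩ => (0, j)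
      | ⟨_, Fn.la⟩ => (1, 0)
      | ⟨_, Fn.t i⟩ => (2, i)
    have hf : Function.Injective f := by
      rintro ⟨_, s⟩ ⟨_, s'⟩ h
      cases s <;> cases s' <;> simp [f] at h
      · have := Fin.ext h
        rw [this]
      · rfl
      · rw [h]
    exact hf.countable
  have h2 : Countable (Σ n, Lg.Relations n) := by
    have : ∀ n, Countable (Lg.Relations n) := fun n => inferInstanceAs (Countable Empty)
    infer_instance
  exact inferInstanceAs (Countable ((Σ n, Lg.Functions n) ⊕ (Σ n, Lg.Relations n)))

/-- Index sets: pairs of an element of `Y` and a finite set of natural numbers. -/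
abbrev Ix (Y : Type) : Type := Y × Finset ℕ

/-- Insertion of `i` in the index. -/
def ins {Y : Type} (i : ℕ) (p : Ix Y) : Ix Y := (p.1, insert i p.2)

/-- The algebra `H(Y)`. -/
abbrev H (Y : Type) : Type := Fr (Ix Y)

/-- The interpretation of the symbols. -/
def op {Y : Type} : ∀ {n : ℕ}, Fn n → (Fin n → H Y) → H Y
  | _, Fn.al j, xs => al j (xs 0)
  | _, Fn.la, xs => la xs
  | _, Fn.t i, xs => mp (ins i) (xs 0)

instance (Y : Type) : Lg.Structure (H Y) where
  funMap := fun f xs => op f xs
  RelMap := fun r _ => r.elim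

theorem funMap_eq {Y : Type} {n : ℕ} (f : Fn n) (xs : Fin n → H Y) :
    Structure.funMap (L := Lg) f xs = op f xs := rfl

/-- A map commuting with the operations is a homomorphism. -/
def mkEmb {Y Y' : Type} (u : H Y → H Y') (hi : Function.Injective u)
    (h1 : ∀ j f, u (al j f) = al j (u f)) (h2 : ∀ g, u (la g) = la (fun j => u (g j)))
    (h3 : ∀ i f, u (mp (ins i) f) = mp (ins i) (u f)) : H Y ↪[Lg] H Y' where
  toFun := u
  inj' := hi
  map_fun' := by
    intro n f xs
    cases f with
    | al j => exact h1 j (xs 0)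
    | la => exact h2 xs
    | t i => exact h3 i (xs 0)
  map_rel' := fun r => r.elim

/-- A bijection commuting with the operations is an isomorphism. -/
def mkEquiv {Y Y' : Type} (u : H Y ≃ H Y')
    (h1 : ∀ j f, u (al j f) = al j (u f)) (h2 : ∀ g, u (la g) = la (fun j => u (g j)))
    (h3 : ∀ i f, u (mp (ins i) f) = mp (ins i) (u f)) : H Y ≃[Lg] H Y' where
  toEquiv := u
  map_fun' := by
    intro n f xs
    cases f with
    | al j => exact h1 j (xs 0)
    | la => exact h2 xs
    | t i => exact h3 i (xs 0)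
  map_rel' := fun r => r.elim

end Q202.Iso
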