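import Mathlib.ModelTheory.Semantics
import Mathlib.ModelTheory.FinitelyGenerated

/-!
# Isotypic algebras
-/

universe u v w w'

namespace Q202.Iso

open FirstOrder FirstOrder.Language

/-- The tuples `a` of `A` and `b` of `B` have the same complete first-order type. -/
def SameType (L : Language.{u, v}) {A : Type w} {B : Type w'} [L.Structure A] [L.Structure B]
    {n : ℕ} (a : Fin n → A) (b : Fin n → B) : Prop :=
  ∀ φ : L.Formula (Fin n), φ.Realize a ↔ φ.Realize b

/-- `A` and `B` are isotypic: for every `n ≥ 1` they realize the same complete `n`-types. -/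
def Isotypic (L : Language.{u, v}) (A : Type w) (B : Type w') [L.Structure A] [L.Structure B] :
    Prop :=
  ∀ n : ℕ, 1 ≤ n →
    (∀ a : Fin n → A, ∃ b : Fin n → B, SameType L a b) ∧
    (∀ b : Fin n → B, ∃ a : Fin n → A, SameType L a b)

end Q202.Iso
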