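import Pool.Agent.Q202.Iso.Reduct
import Pool.Agent.Q202.Iso.Cantor
import Mathlib.Logic.Equiv.Prod
import Mathlib.Data.Set.Finite.Basic

/-!
# Elementary embeddings between the algebras `H(Y)`
-/

namespace Q202.Iso

open FirstOrder FirstOrder.Language Stream'

/-- A permutation of an infinite set moving a finite set into an infinite set and fixing another
finite set. -/
theorem exists_perm_move {B : Type} (D C : Finset B) (hDC : Disjoint D C) (T : Set B)
    (hT : T.Infinite) :
    ∃ π : _root_.Equiv.Perm B, (∀ d ∈ D, π d = d) ∧ ∀ c ∈ C, π c ∈ T := by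
  classical
  induction C using Finset.induction_on with
  | empty => exact ⟨1, fun d _ => rfl, by simp⟩
  | insert c C hc ih =>
    obtain ⟨π, h1, h2⟩ := ih (Finset.disjoint_of_subset_right (Finset.subset_insert _ _) hDC)
    obtain ⟨t, ht, ht'⟩ := hT.exists_notMem_finset (D ∪ C.image π)
    rw [Finset.mem_union, not_or] at ht'
    refine ⟨_root_.Equiv.swap (π c) t * π, fun d hd => ?_, fun c' hc' => ?_⟩
    · rw [_root_.Equiv.Perm.mul_apply, h1 d hd, _root_.Equiv.swap_apply_of_ne_of_ne]
      · intro h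
        rw [← h1 d hd] at h
        have := π.injective h
        rw [this] at hd
        exact Finset.disjoint_left.1 hDC hd (Finset.mem_insert_self _ _)
      · rintro rfl
        exact ht'.1 hd
    · rcases Finset.mem_insert.1 hc' with rfl | hc'
      · rw [_root_.Equiv.Perm.mul_apply, _root_.Equiv.swap_apply_left]
        exact ht
      · rw [_root_.Equiv.Perm.mul_apply, _root_.Equiv.swap_apply_of_ne_of_ne]
        · exact h2 c' hc'
        · intro h
          have := π.injective h
          rw [this] at hc'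
          exact hc hc'
        · rintro rfl
          exact ht'.2 (Finset.mem_image_of_mem _ hc')

/-- Finite sets with all elements below `k`. -/
def Lo (k : ℕ) : Type := {s : Finset ℕ // ∀ i ∈ s, i < k}

/-- Finite sets with all elements at least `k`. -/
def Hi (k : ℕ) : Type := {s : Finset ℕ // ∀ i ∈ s, k ≤ i}

/-- The low part. -/
def lo (k : ℕ) (s : Finset ℕ) : Lo k := ⟨s.filter (· < k), fun i hi => (Finset.mem_filter.1 hi).2⟩

/-- The high part. -/
def hi (k : ℕ) (s : Finset ℕ) : Hi k := ⟨s.filter (k ≤ ·), fun i hi => (Finset.mem_filter.1 hi).2⟩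

theorem lo_hi (k : ℕ) (s : Finset ℕ) : (lo k s).1 ∪ (hi k s).1 = s := by
  ext i
  simp only [lo, hi, Finset.mem_union, Finset.mem_filter]
  have := lt_or_ge i k
  tauto

theorem lo_union (k : ℕ) (p : Lo k) (t : Hi k) : lo k (p.1 ∪ t.1) = p := by
  apply Subtype.ext
  ext i
  simp only [lo, Finset.mem_union, Finset.mem_filter]
  constructor
  · rintro ⟨h | h, h'⟩
    · exact h
    · exact absurd (t.2 i h) (not_le.2 h')
  · intro h
    exact ⟨Or.inl h, p.2 i h⟩

theorem hi_union (k : ℕ) (p : Lo k) (t : Hi k) : hi k (p.1 ∪ t.1) = t := by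
  apply Subtype.ext
  ext i
  simp only [hi, Finset.mem_union, Finset.mem_filter]
  constructor
  · rintro ⟨h | h, h'⟩
    · exact absurd (p.2 i h) (not_lt.2 h')
    · exact h
  · intro h
    exact ⟨Or.inr h, t.2 i h⟩

theorem hi_insert (k i : ℕ) (hik : i < k) (s : Finset ℕ) : hi k (insert i s) = hi k s := by
  apply Subtype.ext
  ext j
  simp only [hi, Finset.mem_filter, Finset.mem_insert]
  constructor
  · rintro ⟨rfl | h, h'⟩
    · omega
    · exact ⟨h, h'⟩
  · rintro ⟨h, h'⟩
    exact ⟨Or.inr h, h'⟩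

theorem lo_insert (k i : ℕ) (hik : i < k) (s : Finset ℕ) :
    (lo k (insert i s)).1 = insert i (lo k s).1 := by
  ext j
  simp only [lo, Finset.mem_filter, Finset.mem_insert]
  constructor
  · rintro ⟨rfl | h, h'⟩
    · exact Or.inl rfl
    · exact Or.inr ⟨h, h'⟩
  · rintro (rfl | ⟨h, h'⟩)
    · exact ⟨Or.inl rfl, hik⟩
    · exact ⟨Or.inr h, h'⟩

/-- The map of indices induced by a map of `Y × Hi k`. -/
def ext {Y : Type} (k : ℕ) (π : Y × Hi k → Y × Hi k) (p : Ix Y) : Ix Y :=
  ((π (p.1, hi k p.2)).1, (lo k p.2).1 ∪ (π (p.1, hi k p.2)).2.1)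

theorem ext_ext {Y : Type} (k : ℕ) (π π' : Y × Hi k → Y × Hi k) (p : Ix Y) :
    ext k π (ext k π' p) = ext k (π ∘ π') p := by
  unfold ext
  simp only [hi_union, lo_union, Function.comp]

theorem ext_id {Y : Type} (k : ℕ) (p : Ix Y) : ext k id p = p := by
  unfold ext
  simp only [id_eq, lo_hi]

/-- The permutation of indices induced by a permutation of `Y × Hi k`. -/
def extPerm {Y : Type} (k : ℕ) (π : _root_.Equiv.Perm (Y × Hi k)) : _root_.Equiv.Perm (Ix Y) where
  toFun := ext k π
  invFun := ext k π.symm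
  left_inv p := by
    rw [ext_ext]
    have : (π.symm : Y × Hi k → Y × Hi k) ∘ π = id := by funext x; simp
    rw [this, ext_id]
  right_inv p := by
    rw [ext_ext]
    have : (π : Y × Hi k → Y × Hi k) ∘ π.symm = id := by funext x; simp
    rw [this, ext_id]

theorem extPerm_ins {Y : Type} (k : ℕ) (π : _root_.Equiv.Perm (Y × Hi k)) (i : ℕ) (hik : i < k)
    (p : Ix Y) : extPerm k π (ins i p) = ins i (extPerm k π p) := by
  change ext k π (ins i p) = ins i (ext k π p)
  unfold ext ins
  simp only [hi_insert k i hik, lo_insert k i hik, Finset.insert_union]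

/-- The permutation of `H(Y)` induced by a permutation of the indices. -/
def mpPerm {Y : Type} (π : _root_.Equiv.Perm (Ix Y)) : _root_.Equiv.Perm (H Y) where
  toFun := mp π
  invFun := mp π.symm
  left_inv f := by
    rw [mp_mp]
    have : (π.symm : Ix Y → Ix Y) ∘ π = id := by funext x; simp
    rw [this, mp_id]
  right_inv f := by
    rw [mp_mp]
    have : (π : Ix Y → Ix Y) ∘ π.symm = id := by funext x; simp
    rw [this, mp_id]

/-- The embedding `H(Y) → H(Y')` induced by an injection. -/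
def embH {Y Y' : Type} (ι : Y ↪ Y') : H Y ↪[Lg] H Y' :=
  mkEmb (mp (fun p : Ix Y => ((ι p.1, p.2) : Ix Y')))
    (by
      intro f g h
      apply Fr.ext
      intro z
      have h1 := congrFun (congrArg Subtype.val h) z
      have h2 : ((ι (f.1 z).1.1, (f.1 z).1.2), (f.1 z).2) =
        ((ι (g.1 z).1.1, (g.1 z).1.2), (g.1 z).2) := h1
      simp only [Prod.mk.injEq, EmbeddingLike.apply_eq_iff_eq] at h2
      exact Prod.ext (Prod.ext h2.1.1 h2.1.2) h2.2)
    (fun _ _ => rfl) (fun _ => rfl) (fun _ _ => rfl)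

theorem embH_apply {Y Y' : Type} (ι : Y ↪ Y') (f : H Y) :
    embH ι f = mp (fun p : Ix Y => ((ι p.1, p.2) : Ix Y')) f := rfl

theorem exists_embH {Y Y' : Type} [Nonempty Y] (ι : Y ↪ Y') (a : H Y')
    (ha : ∀ p ∈ supp a, p.1 ∈ Set.range ι) : ∃ b : H Y, a = embH ι b := by
  classical
  refine ⟨mp (fun p : Ix Y' => ((Function.invFun ι p.1, p.2) : Ix Y)) a, ?_⟩
  rw [embH_apply, mp_mp]
  conv_lhs => rw [← mp_id a]
  apply mp_congr
  intro p hp
  obtain ⟨y, hy⟩ := ha p hp
  change p = (ι (Function.invFun ι p.1), p.2)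
  rw [← hy, Function.leftInverse_invFun ι.injective y, hy]

theorem infinite_Hi (k : ℕ) : Infinite (Hi k) := by
  refine Infinite.of_injective (fun n : ℕ => (⟨{k + n}, by
    intro i hi
    rw [Finset.mem_singleton] at hi
    omega⟩ : Hi k)) ?_
  intro n m h
  have h1 := congrArg Subtype.val h
  simp only [Finset.singleton_inj] at h1
  omega

/-- `H(Y) → H(Y')` is elementary. -/
theorem embH_elementary {Y Y' : Type} [Nonempty Y] (ι : Y ↪ Y') :
    ∃ g : H Y ↪ₑ[Lg] H Y', ∀ x, g x = embH ι x := by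
  classical
  apply elementary_of_aut
  intro F n x a
  -- bound for the symbols
  obtain ⟨k, hk⟩ : ∃ k, ∀ i, (⟨1, Fn.t i⟩ : Σ n, Lg.Functions n) ∈ F → i < k := by
    let val : (Σ n, Lg.Functions n) → ℕ := fun s => match s with
      | ⟨_, Fn.t i⟩ => i
      | _ => 0
    refine ⟨F.sup val + 1, fun i hi => Nat.lt_succ_of_le ?_⟩
    exact Finset.le_sup (f := val) hi
  let pr : Ix Y' → Y' × Hi k := fun p => (p.1, hi k p.2)
  have hsx : ∀ i, (supp (embH ι (x i))).Finite := fun i => supp_finite _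
  have hsa : (supp a).Finite := supp_finite _
  let D : Finset (Y' × Hi k) := Finset.univ.biUnion (fun i => (hsx i).toFinset.image pr)
  let C : Finset (Y' × Hi k) := (hsa.toFinset.image pr) \ D
  have hDr : ∀ d ∈ D, d.1 ∈ Set.range ι := by
    intro d hd
    simp only [D, Finset.mem_biUnion, Finset.mem_univ, true_and, Finset.mem_image,
      Set.Finite.mem_toFinset] at hd
    obtain ⟨i, p, ⟨z, rfl⟩, rfl⟩ := hd
    exact ⟨_, rfl⟩
  obtain ⟨y0⟩ := (inferInstance : Nonempty Y)
  have hT : (Set.range (fun t : Hi k => ((ι y0, t) : Y' × Hi k))).Infinite := by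
    have := infinite_Hi k
    apply Set.infinite_range_of_injective
    intro t t' h
    exact congrArg Prod.snd h
  obtain ⟨π, hπD, hπC⟩ := exists_perm_move D C (Finset.disjoint_sdiff) _ hT
  have hfix : ∀ p : Ix Y', pr p ∈ D → extPerm k π p = p := by
    intro p hp
    change ext k π p = p
    unfold ext
    change ((π (pr p)).1, (lo k p.2).1 ∪ (π (pr p)).2.1) = p
    rw [hπD _ hp]
    change (p.1, (lo k p.2).1 ∪ (hi k p.2).1) = p
    rw [lo_hi]
  refine ⟨mpPerm (extPerm k π), ?_, ?_, ?_⟩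
  · -- commutes with the symbols in `F`
    intro m f hf xs
    cases f with
    | al j => rfl
    | la => rfl
    | t i =>
      have hik := hk i hf
      change mp (extPerm k π) (mp (ins i) (xs 0)) = mp (ins i) (mp (extPerm k π) (xs 0))
      rw [mp_mp, mp_mp]
      congr 1
      funext p
      exact extPerm_ins k π i hik p
  · intro i
    change mp (extPerm k π) (embH ι (x i)) = embH ι (x i)
    conv_rhs => rw [← mp_id (embH ι (x i))]
    apply mp_congr
    intro p hp
    apply hfix
    simp only [D, Finset.mem_biUnion, Finset.mem_univ, true_and, Finset.mem_image,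
      Set.Finite.mem_toFinset]
    exact ⟨i, p, hp, rfl⟩
  · apply exists_embH
    rintro _ ⟨z, rfl⟩
    change (ext k π (a.1 z).1).1 ∈ Set.range ι
    by_cases h : pr (a.1 z).1 ∈ D
    · have := hfix _ h
      change ext k π (a.1 z).1 = _ at this
      rw [this]
      exact hDr _ h
    · have hC : pr (a.1 z).1 ∈ C := by
        rw [Finset.mem_sdiff]
        refine ⟨Finset.mem_image_of_mem _ ?_, h⟩
        rw [Set.Finite.mem_toFinset]
        exact ⟨z, rfl⟩
      obtain ⟨t, ht⟩ := hπC _ hC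
      unfold ext
      change (π (pr (a.1 z).1)).1 ∈ _
      rw [← ht]
      exact ⟨y0, rfl⟩

/-! ### `H(Y × 3)` and `H(Y)` are isomorphic -/

/-- Push the last coordinate into the sequence. -/
def pushZ {Y : Type} (f : H (Y × Fin 3)) : H Y :=
  ⟨fun z => (((f.1 z).1.1.1, (f.1 z).1.2), (f.1 z).1.1.2 :: (f.1 z).2), by
    obtain ⟨l, hl⟩ := f.2
    refine ⟨l, fun w hw => ?_⟩
    obtain ⟨x, v, hv⟩ := hl w hw
    refine ⟨(x.1.1, x.2), x.1.2 :: v, fun z => ?_⟩
    change (((f.1 (w ++ₛ z)).1.1.1, (f.1 (w ++ₛ z)).1.2),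
      (f.1 (w ++ₛ z)).1.1.2 :: (f.1 (w ++ₛ z)).2) = _
    rw [show f.1 (w ++ₛ z) = (x, v ++ₛ z) from hv z]
    rfl⟩

/-- Pull the first letter out of the sequence. -/
def pullZ {Y : Type} (f : H Y) : H (Y × Fin 3) :=
  ⟨fun z => ((((f.1 z).1.1, (f.1 z).2.head), (f.1 z).1.2), (f.1 z).2.tail), by
    obtain ⟨l, hl⟩ := f.2
    refine ⟨l + 1, fun w hw => ?_⟩
    obtain ⟨w', c, rfl⟩ : ∃ (w' : List (Fin 3)) (c : Fin 3), w = w' ++ [c] :=
      ⟨w.dropLast, w.getLast (by rintro rfl; simp at hw), (List.dropLast_append_getLast _).symm⟩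
    obtain ⟨x, v, hv⟩ := hl w' (by simpa using hw)
    obtain ⟨j, v', hj⟩ : ∃ (j : Fin 3) (v' : List (Fin 3)), v ++ [c] = j :: v' := by
      rcases v with _ | ⟨j, v'⟩
      · exact ⟨c, [], rfl⟩
      · exact ⟨j, v' ++ [c], rfl⟩
    refine ⟨((x.1, j), x.2), v', fun z => ?_⟩
    have h1 : f.1 ((w' ++ [c]) ++ₛ z) = (x, j :: (v' ++ₛ z)) := by
      rw [append_append_stream]
      have h2 : f.1 (w' ++ₛ ([c] ++ₛ z)) = (x, v ++ₛ ([c] ++ₛ z)) := hv _
      rw [h2, ← append_append_stream, hj]
      rfl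
    change ((((f.1 ((w' ++ [c]) ++ₛ z)).1.1, (f.1 ((w' ++ [c]) ++ₛ z)).2.head),
      (f.1 ((w' ++ [c]) ++ₛ z)).1.2), (f.1 ((w' ++ [c]) ++ₛ z)).2.tail) = _
    rw [h1]
    rfl⟩

/-- `H(Y × 3) ≃ H(Y)`. -/
def tripleEquiv (Y : Type) : H (Y × Fin 3) ≃[Lg] H Y :=
  mkEquiv
    { toFun := pushZ
      invFun := pullZ
      left_inv := by
        intro f
        apply Fr.ext
        intro z
        rfl
      right_inv := by
        intro f
        apply Fr.ext
        intro z
        change ((((f.1 z).1.1), (f.1 z).1.2), (f.1 z).2.head :: (f.1 z).2.tail) = f.1 z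
        rw [Stream'.eta] }
    (fun _ _ => rfl) (fun _ => rfl) (fun _ _ => rfl)

/-- `H(Y)` depends only on the cardinality of `Y`. -/
def congrEquiv {Y Y' : Type} (e : Y ≃ Y') : H Y ≃[Lg] H Y' :=
  mkEquiv
    { toFun := mp (fun p : Ix Y => ((e p.1, p.2) : Ix Y'))
      invFun := mp (fun p : Ix Y' => ((e.symm p.1, p.2) : Ix Y))
      left_inv := by
        intro f
        rw [mp_mp]
        conv_rhs => rw [← mp_id f]
        congr 1
        funext p
        simp
      right_inv := by
        intro f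
        rw [mp_mp]
        conv_rhs => rw [← mp_id f]
        congr 1
        funext p
        simp }
    (fun _ _ => rfl) (fun _ => rfl) (fun _ _ => rfl)

/-- Types of `H(Y)` are realized in `H(Y')` if `Y` embeds in `Y'`. -/
theorem typesLE_of_emb {Y Y' : Type} [Nonempty Y] (ι : Y ↪ Y') : TypesLE Lg (H Y) (H Y') := by
  obtain ⟨g, _⟩ := embH_elementary ι
  exact TypesLE.of_elementary g

theorem typesLE_succ (n : ℕ) (hn : 1 ≤ n) : TypesLE Lg (H (Fin (n + 1))) (H (Fin n)) := by
  have hne : Nonempty (Fin (n + 1) ↪ Fin n × Fin 3) := by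
    apply Function.Embedding.nonempty_of_card_le
    simp
    omega
  obtain ⟨ι⟩ := hne
  exact (typesLE_of_emb ι).trans (TypesLE.of_elementary (tripleEquiv (Fin n)).toElementaryEmbedding)

theorem typesLE_one (n : ℕ) (hn : 1 ≤ n) : TypesLE Lg (H (Fin n)) (H (Fin 1)) := by
  induction n, hn using Nat.le_induction with
  | base => intro m a; exact ⟨a, fun φ => Iff.rfl⟩
  | succ n hn ih => exact (typesLE_succ n hn).trans ih

/-- Types of `H(Y)` are realized in `H(1)`, whatever `Y`. -/
theorem typesLE_any (Y : Type) [Nonempty Y] : TypesLE Lg (H Y) (H (Fin 1)) := by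
  classical
  intro m a
  obtain ⟨y0⟩ := (inferInstance : Nonempty Y)
  let Y0 : Finset Y := insert y0 (Finset.univ.biUnion (fun i => (supp_finite (a i)).toFinset.image
    Prod.fst))
  have hne : Nonempty Y0 := ⟨⟨y0, Finset.mem_insert_self _ _⟩⟩
  let ι : Y0 ↪ Y := Function.Embedding.subtype _
  have h1 : ∀ i, ∃ b : H Y0, a i = embH ι b := by
    intro i
    apply exists_embH
    intro p hp
    have hp' : p.1 ∈ Y0 := by
      apply Finset.mem_insert_of_mem
      rw [Finset.mem_biUnion]
      refine ⟨i, Finset.mem_univ _, Finset.mem_image_of_mem _ ?_⟩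
      rw [Set.Finite.mem_toFinset]
      exact hp
    exact ⟨⟨p.1, hp'⟩, rfl⟩
  choose b hb using h1
  obtain ⟨g, hg⟩ := embH_elementary ι
  obtain ⟨n, ⟨e⟩⟩ := Finite.exists_equiv_fin Y0
  have hn : 1 ≤ n := by
    by_contra h
    have h0 : n = 0 := by omega
    subst h0
    exact (e hne.some).elim0
  obtain ⟨c, hc⟩ := typesLE_one n hn m (fun i => congrEquiv e (b i))
  refine ⟨c, fun φ => ?_⟩
  rw [← hc φ]
  have h2 : a = g ∘ b := by
    funext i
    rw [hb i]
    exact (hg _).symm
  rw [h2, g.map_formula]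
  exact ((congrEquiv e).toElementaryEmbedding.map_formula φ b).symm

end Q202.Iso
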