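import Pool.Agent.Q202.Iso.Elem
import Mathlib.Data.Fintype.BigOperators
import Mathlib.Data.Fintype.Vector
import Mathlib.Algebra.BigOperators.Ring.Nat
import Mathlib.Data.Nat.ModEq
import Mathlib.Algebra.Ring.Parity
import Mathlib.Algebra.BigOperators.Group.Finset.Basic
import Mathlib.Tactic.Ring

/-!
# Finite generation and non-isomorphism
-/

namespace Q202.Iso

open FirstOrder FirstOrder.Language Stream'

/-- Closure properties of a substructure. -/
theorem al_mem {Y : Type} (S : Lg.Substructure (H Y)) (j : Fin 3) (f : H Y) (hf : f ∈ S) :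
    (al j f : H Y) ∈ S :=
  S.fun_mem (Fn.al j : Lg.Functions 1) (fun _ => f) (fun _ => hf)

theorem la_mem {Y : Type} (S : Lg.Substructure (H Y)) (g : Fin 3 → H Y) (hg : ∀ j, g j ∈ S) :
    (la g : H Y) ∈ S :=
  S.fun_mem (Fn.la : Lg.Functions 3) g hg

theorem t_mem {Y : Type} (S : Lg.Substructure (H Y)) (i : ℕ) (f : H Y) (hf : f ∈ S) :
    (mp (ins i) f : H Y) ∈ S :=
  S.fun_mem (Fn.t i : Lg.Functions 1) (fun _ => f) (fun _ => hf)

theorem mem_of_gens {Y : Type} (S : Lg.Substructure (H Y)) (h : ∀ y : Y, (de (y, ∅) : H Y) ∈ S)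
    (f : H Y) : f ∈ S := by
  classical
  refine gen_induction (fun f => f ∈ S) (fun j f hf => al_mem S j f hf)
    (fun g hg => la_mem S g hg) f ?_
  rintro ⟨y, s⟩ hmem
  clear hmem
  induction s using Finset.induction_on with
  | empty => exact h y
  | insert i s _ ih => exact t_mem S i _ ih

/-- `H(Y)` is finitely generated for finite `Y`. -/
theorem fg_of_finite (Y : Type) [Finite Y] : Structure.FG Lg (H Y) := by
  classical
  have := Fintype.ofFinite Y
  refine ⟨⟨Finset.univ.image (fun y : Y => (de (y, ∅) : H Y)), ?_⟩⟩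
  rw [eq_top_iff]
  intro f _
  apply mem_of_gens
  intro y
  apply Substructure.subset_closure
  simp

/-- `H(Y)` is not finitely generated for infinite `Y`. -/
theorem not_fg_of_infinite (Y : Type) [Infinite Y] : ¬ Structure.FG Lg (H Y) := by
  classical
  rintro ⟨⟨T, hT⟩⟩
  let Y0 : Set Y := ⋃ f ∈ T, Prod.fst '' (supp f)
  have hY0 : Y0.Finite := T.finite_toSet.biUnion (fun f _ => (supp_finite f).image _)
  obtain ⟨y, hy⟩ := hY0.exists_notMem
  let S : Lg.Substructure (H Y) :=
    { carrier := {f | ∀ z, (f.1 z).1.1 ≠ y}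
      fun_mem := by
        intro n f xs hxs
        cases f with
        | al j => exact fun z => hxs 0 (j :: z)
        | la => exact fun z => hxs z.head z.tail
        | t i => exact fun z => hxs 0 z }
  have h1 : (T : Set (H Y)) ⊆ S := by
    intro f hf z hz
    apply hy
    simp only [Y0, Set.mem_iUnion]
    exact ⟨f, hf, _, ⟨z, rfl⟩, hz⟩
  have h2 : (⊤ : Lg.Substructure (H Y)) ≤ S := by
    rw [← hT]
    exact Substructure.closure_le.2 h1
  have h3 : (de (y, ∅) : H Y) ∈ S := h2 (Substructure.mem_top _)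
  exact h3 (Stream'.const 0) rfl

/-- Add a finite set to the index. -/
def shiftIx {Y : Type} (s : Finset ℕ) (p : Ix Y × Z) : Ix Y × Z := ((p.1.1, s ∪ p.1.2), p.2)

/-- The map of `Ix Y × Z` induced by a homomorphism. -/
def hat {Y Y' : Type} (φ : H Y →[Lg] H Y') (q : Ix Y × Z) : Ix Y' × Z :=
  shiftIx q.1.2 ((φ (de (q.1.1, ∅))).1 q.2)

theorem hom_apply {Y Y' : Type} (φ : H Y →[Lg] H Y') (f : H Y) :
    ∀ z, (φ f).1 z = hat φ (f.1 z) := by
  classical
  have hal : ∀ j f, φ (al j f) = al j (φ f) := fun j f =>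
    φ.map_fun (Fn.al j : Lg.Functions 1) (fun _ => f)
  have hla : ∀ g : Fin 3 → H Y, φ (la g) = la (fun j => φ (g j)) := fun g =>
    φ.map_fun (Fn.la : Lg.Functions 3) g
  have ht : ∀ i f, φ (mp (ins i) f) = mp (ins i) (φ f) := fun i f =>
    φ.map_fun (Fn.t i : Lg.Functions 1) (fun _ => f)
  refine gen_induction (fun f => ∀ z, (φ f).1 z = hat φ (f.1 z)) ?_ ?_ f ?_
  · intro j f hf z
    rw [hal]
    exact hf (j :: z)
  · intro g hg z
    rw [hla]
    exact hg z.head z.tail
  · rintro ⟨y, s⟩ hmem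
    clear hmem
    induction s using Finset.induction_on with
    | empty =>
      intro z
      change _ = shiftIx ∅ ((φ (de (y, ∅))).1 z)
      unfold shiftIx
      simp
    | insert i s _ ih =>
      intro z
      have h1 : (de (y, insert i s) : H Y) = mp (ins i) (de (y, s)) := rfl
      rw [h1, ht]
      change (ins i ((φ (de (y, s))).1 z).1, ((φ (de (y, s))).1 z).2) = _
      rw [ih z]
      change (ins i (shiftIx s ((φ (de (y, ∅))).1 z)).1, (shiftIx s ((φ (de (y, ∅))).1 z)).2) =
        shiftIx (insert i s) ((φ (de (y, ∅))).1 z)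
      unfold shiftIx ins
      simp

theorem takeApp (n : ℕ) (x : List (Fin 3)) (a : Z) (h : n ≤ x.length) :
    Stream'.take n (x ++ₛ a) = List.take n x := by
  apply take_append_of_le_length
  exact h

/-- The parity obstruction. -/
theorem parity (f : Z → Fin 2 × Z) (hf : Function.Bijective f) (l : ℕ) (hl : LP l f) : False := by
  classical
  choose y v hv using hl
  -- vectors
  let y' : List.Vector (Fin 3) l → Fin 2 := fun w => y w.1 w.2
  let v' : List.Vector (Fin 3) l → List (Fin 3) := fun w => v w.1 w.2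
  have hv' : ∀ (w : List.Vector (Fin 3) l) (z : Z), f (w.1 ++ₛ z) = (y' w, v' w ++ₛ z) :=
    fun w z => hv w.1 w.2 z
  let L : ℕ := Finset.univ.sup (fun w => (v' w).length)
  have hL : ∀ w, (v' w).length ≤ L := fun w => Finset.le_sup (f := fun w => (v' w).length)
    (Finset.mem_univ w)
  let F : (Σ w : List.Vector (Fin 3) l, List.Vector (Fin 3) (L - (v' w).length)) →
      Fin 2 × List.Vector (Fin 3) L := fun p =>
    (y' p.1, ⟨v' p.1 ++ p.2.1, by rw [List.length_append, p.2.2]; have := hL p.1; omega⟩)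
  have hF : Function.Bijective F := by
    constructor
    · rintro ⟨w, u⟩ ⟨w', u'⟩ h
      have h1 : y' w = y' w' := congrArg Prod.fst h
      have h2 : v' w ++ u.1 = v' w' ++ u'.1 := congrArg (fun q => q.2.1) h
      have h3 : f (w.1 ++ₛ (u.1 ++ₛ Stream'.const 0)) = f (w'.1 ++ₛ (u'.1 ++ₛ Stream'.const 0)) := by
        rw [hv', hv', h1, ← append_append_stream, ← append_append_stream, h2]
      have h4 := hf.1 h3
      have h5 : w = w' := by
        apply Subtype.ext
        have h6 := congrArg (Stream'.take l) h4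
        rw [takeApp _ _ _ (le_of_eq w.2.symm), takeApp _ _ _ (le_of_eq w'.2.symm)] at h6
        rw [List.take_of_length_le (le_of_eq w.2), List.take_of_length_le (le_of_eq w'.2)] at h6
        exact h6
      subst h5
      have h7 : u = u' := Subtype.ext (List.append_cancel_left h2)
      rw [h7]
    · rintro ⟨b, u⟩
      obtain ⟨z, hz⟩ := hf.2 (b, u.1 ++ₛ Stream'.const 0)
      let w : List.Vector (Fin 3) l := ⟨Stream'.take l z, length_take l z⟩
      have h1 : f (w.1 ++ₛ drop l z) = (y' w, v' w ++ₛ drop l z) := hv' w _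
      rw [append_take_drop] at h1
      rw [hz] at h1
      have h2 : b = y' w := congrArg Prod.fst h1
      have h3 : u.1 ++ₛ Stream'.const 0 = v' w ++ₛ drop l z := congrArg Prod.snd h1
      have h4 : u.1.take (v' w).length = v' w := by
        have h5 := congrArg (Stream'.take (v' w).length) h3
        rw [takeApp _ _ _ (by rw [u.2]; exact hL w), takeApp _ _ _ le_rfl, List.take_length] at h5
        exact h5
      refine ⟨⟨w, ⟨u.1.drop (v' w).length, by rw [List.length_drop, u.2]⟩⟩, ?_⟩
      refine Prod.ext h2.symm (Subtype.ext ?_)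
      change v' w ++ u.1.drop (v' w).length = u.1
      conv_lhs => rw [← h4]
      rw [List.length_take_of_le (by rw [u.2]; exact hL w)]
      exact List.take_append_drop _ _
  have hcard := Fintype.card_of_bijective hF
  rw [Fintype.card_sigma, Fintype.card_prod, Fintype.card_fin, card_vector, Fintype.card_fin] at hcard
  have hodd : Odd (∑ w : List.Vector (Fin 3) l,
      Fintype.card (List.Vector (Fin 3) (L - (v' w).length))) := by
    rw [Finset.odd_sum_iff_odd_card_odd]
    have : (Finset.univ.filter (fun w : List.Vector (Fin 3) l =>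
        Odd (Fintype.card (List.Vector (Fin 3) (L - (v' w).length))))) = Finset.univ := by
      rw [Finset.filter_eq_self]
      intro w _
      rw [card_vector, Fintype.card_fin]
      exact Odd.pow (by decide)
    rw [this, Finset.card_univ, card_vector, Fintype.card_fin]
    exact Odd.pow (by decide)
  rw [hcard] at hodd
  have heven : Even (2 * 3 ^ L) := even_two_mul _
  exact (Nat.not_even_iff_odd.2 hodd) heven

theorem not_iso : ¬ Nonempty (H (Fin 1) ≃[Lg] H (Fin 2)) := by
  classical
  rintro ⟨φ⟩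
  let Φ := hat φ.toHom
  let Ψ := hat φ.symm.toHom
  have h1 : ∀ z : Z, Ψ ((φ (de (0, ∅))).1 z) = ((0, ∅), z) := by
    intro z
    have := hom_apply φ.symm.toHom (φ (de (0, ∅))) z
    change (φ.symm (φ (de (0, ∅)))).1 z = _ at this
    rw [φ.symm_apply_apply] at this
    exact this.symm
  have h2 : ∀ (y : Fin 2) (z : Z), Φ ((φ.symm (de (y, ∅))).1 z) = ((y, ∅), z) := by
    intro y z
    have := hom_apply φ.toHom (φ.symm (de (y, ∅))) z
    change (φ (φ.symm (de (y, ∅)))).1 z = _ at this
    rw [φ.apply_symm_apply] at this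
    exact this.symm
  have hs1 : ∀ z : Z, ((φ (de (0, ∅))).1 z).1.2 = ∅ := by
    intro z
    have := congrArg (fun q => q.1.2) (h1 z)
    simp only [Ψ, hat, shiftIx, Finset.union_eq_empty] at this
    exact this.1
  have hs2 : ∀ (y : Fin 2) (z : Z), ((φ.symm (de (y, ∅))).1 z).1.2 = ∅ := by
    intro y z
    have := congrArg (fun q => q.1.2) (h2 y z)
    simp only [Φ, hat, shiftIx, Finset.union_eq_empty] at this
    exact this.1
  let f : Z → Fin 2 × Z := fun z => (((φ (de (0, ∅))).1 z).1.1, ((φ (de (0, ∅))).1 z).2)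
  have hf : ∀ z, (φ (de (0, ∅))).1 z = (((f z).1, ∅), (f z).2) := by
    intro z
    exact Prod.ext (Prod.ext rfl (hs1 z)) rfl
  obtain ⟨l, hl⟩ := (φ (de (0, ∅))).2
  refine parity f ⟨?_, ?_⟩ l ?_
  · intro z z' h
    have h3 := h1 z
    have h4 := h1 z'
    rw [hf z, h, ← hf z', h4] at h3
    exact (congrArg Prod.snd h3).symm
  · rintro ⟨y, z'⟩
    let q := (φ.symm (de (y, ∅))).1 z'
    have hq : q = ((0, ∅), q.2) := Prod.ext (Prod.ext (Subsingleton.elim _ _) (hs2 y z')) rfl
    refine ⟨q.2, ?_⟩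
    have h3 := h2 y z'
    change Φ q = _ at h3
    rw [hq] at h3
    change shiftIx ∅ ((φ (de (0, ∅))).1 q.2) = ((y, ∅), z') at h3
    have h4 : shiftIx ∅ ((φ (de (0, ∅))).1 q.2) = (φ (de (0, ∅))).1 q.2 := by
      unfold shiftIx
      simp
    rw [h4] at h3
    change (((φ (de (0, ∅))).1 q.2).1.1, ((φ (de (0, ∅))).1 q.2).2) = (y, z')
    rw [h3]
  · intro w hw
    obtain ⟨x, v, hv⟩ := hl w hw
    refine ⟨x.1, v, fun z => ?_⟩
    change (((φ (de (0, ∅))).1 (w ++ₛ z)).1.1, ((φ (de (0, ∅))).1 (w ++ₛ z)).2) = _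
    rw [show (φ (de (0, ∅))).1 (w ++ₛ z) = (x, v ++ₛ z) from hv z]

end Q202.Iso
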