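import Pool.Agent.Q202.Iso.Defs
import Mathlib.ModelTheory.ElementaryMaps
import Mathlib.ModelTheory.FinitelyGenerated
import Mathlib.Data.Finset.Sigma
import Mathlib.Data.Fintype.Basic

/-!
# Elementary embeddings through automorphisms of finite reducts

For an algebraic language, each formula involves only finitely many operation symbols, so it is
preserved by the permutations commuting with these operations.
-/

universe u v w w'

namespace Q202.Iso

open FirstOrder FirstOrder.Language

variable {L : Language.{u, v}} {N : Type w} [L.Structure N]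

/-- The permutation `σ` commutes with the operations in `F`. -/
def CommOn (F : Finset (Σ n, L.Functions n)) (σ : _root_.Equiv.Perm N) : Prop :=
  ∀ (n : ℕ) (f : L.Functions n), (⟨n, f⟩ : Σ n, L.Functions n) ∈ F → ∀ xs : Fin n → N,
    σ (Structure.funMap f xs) = Structure.funMap f (σ ∘ xs)

theorem CommOn.mono {F F' : Finset (Σ n, L.Functions n)} {σ : _root_.Equiv.Perm N}
    (h : CommOn F' σ) (hF : F ⊆ F') : CommOn F σ :=
  fun n f hf => h n f (hF hf)

theorem term_finite {α : Type w'} (t : L.Term α) : ∃ F : Finset (Σ n, L.Functions n),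
    ∀ σ : _root_.Equiv.Perm N, CommOn F σ → ∀ v : α → N, σ (t.realize v) = t.realize (σ ∘ v) := by
  classical
  induction t with
  | var a => exact ⟨∅, fun σ _ v => rfl⟩
  | @func n f ts ih =>
    choose F hF using ih
    refine ⟨insert ⟨n, f⟩ (Finset.univ.biUnion F), fun σ hσ v => ?_⟩
    simp only [Term.realize_func]
    rw [hσ n f (Finset.mem_insert_self _ _)]
    congr 1
    funext i
    exact hF i σ (hσ.mono (fun x hx => Finset.mem_insert_of_mem
      (Finset.mem_biUnion.2 ⟨i, Finset.mem_univ _, hx⟩))) v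

theorem formula_finite [L.IsAlgebraic] {α : Type w'} {n : ℕ} (φ : L.BoundedFormula α n) :
    ∃ F : Finset (Σ n, L.Functions n), ∀ σ : _root_.Equiv.Perm N, CommOn F σ →
      ∀ (v : α → N) (xs : Fin n → N), φ.Realize v xs ↔ φ.Realize (σ ∘ v) (σ ∘ xs) := by
  classical
  induction φ with
  | falsum => exact ⟨∅, fun σ _ v xs => Iff.rfl⟩
  | equal t₁ t₂ =>
    obtain ⟨F1, h1⟩ := term_finite (N := N) t₁
    obtain ⟨F2, h2⟩ := term_finite (N := N) t₂
    refine ⟨F1 ∪ F2, fun σ hσ v xs => ?_⟩
    have e : Sum.elim (σ ∘ v) (σ ∘ xs) = σ ∘ Sum.elim v xs := (Sum.comp_elim σ v xs).symm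
    change t₁.realize (Sum.elim v xs) = t₂.realize (Sum.elim v xs) ↔
      t₁.realize (Sum.elim (σ ∘ v) (σ ∘ xs)) = t₂.realize (Sum.elim (σ ∘ v) (σ ∘ xs))
    rw [e, ← h1 σ (hσ.mono Finset.subset_union_left), ← h2 σ (hσ.mono Finset.subset_union_right)]
    exact σ.injective.eq_iff.symm
  | rel R ts => exact isEmptyElim R
  | imp φ ψ ih1 ih2 =>
    obtain ⟨F1, h1⟩ := ih1
    obtain ⟨F2, h2⟩ := ih2
    refine ⟨F1 ∪ F2, fun σ hσ v xs => ?_⟩
    rw [BoundedFormula.realize_imp, BoundedFormula.realize_imp,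
      h1 σ (hσ.mono Finset.subset_union_left), h2 σ (hσ.mono Finset.subset_union_right)]
  | all φ ih =>
    obtain ⟨F, h⟩ := ih
    refine ⟨F, fun σ hσ v xs => ?_⟩
    rw [BoundedFormula.realize_all, BoundedFormula.realize_all]
    constructor
    · intro h1 a
      have h2 := (h σ hσ v (Fin.snoc xs (σ.symm a))).1 (h1 _)
      rw [Fin.comp_snoc, _root_.Equiv.apply_symm_apply] at h2
      exact h2
    · intro h1 a
      rw [h σ hσ, Fin.comp_snoc]
      exact h1 _

/-- A criterion for elementarity: it suffices to move elements by permutations which commute with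
finitely many given operations and fix given elements. -/
theorem elementary_of_aut [L.IsAlgebraic] {M : Type w'} [L.Structure M] (f : M ↪[L] N)
    (h : ∀ (F : Finset (Σ n, L.Functions n)) (n : ℕ) (x : Fin n → M) (a : N),
      ∃ σ : _root_.Equiv.Perm N, CommOn F σ ∧ (∀ i, σ (f (x i)) = f (x i)) ∧ ∃ b, σ a = f b) :
    ∃ g : M ↪ₑ[L] N, ∀ x, g x = f x := by
  refine ⟨f.toElementaryEmbedding (fun n φ x a hφ => ?_), fun x => rfl⟩
  obtain ⟨F, hF⟩ := formula_finite (N := N) φ
  obtain ⟨σ, hσ, hfix, b, hb⟩ := h F n x a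
  refine ⟨b, ?_⟩
  rw [hF σ hσ] at hφ
  have e1 : σ ∘ (Fin.snoc (f ∘ x) a : Fin (n + 1) → N) = Fin.snoc (f ∘ x) (f b) := by
    rw [Fin.comp_snoc, hb]
    congr 1
    funext i
    exact hfix i
  have e2 : (σ ∘ (default : Empty → N)) = default := Subsingleton.elim _ _
  rw [e1, e2] at hφ
  exact hφ

/-- Every type of a finite tuple of `A` is realized in `B`. -/
def TypesLE (L : Language.{u, v}) (A : Type w) (B : Type w') [L.Structure A] [L.Structure B] :
    Prop :=
  ∀ (n : ℕ) (a : Fin n → A), ∃ b : Fin n → B, SameType L a b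

theorem TypesLE.of_elementary {A : Type w} {B : Type w'} [L.Structure A] [L.Structure B]
    (g : A ↪ₑ[L] B) : TypesLE L A B :=
  fun _ a => ⟨g ∘ a, fun φ => (g.map_formula φ a).symm⟩

theorem TypesLE.trans {A B C : Type w} [L.Structure A] [L.Structure B] [L.Structure C]
    (h1 : TypesLE L A B) (h2 : TypesLE L B C) : TypesLE L A C := by
  intro n a
  obtain ⟨b, hb⟩ := h1 n a
  obtain ⟨c, hc⟩ := h2 n b
  exact ⟨c, fun φ => (hb φ).trans (hc φ)⟩

theorem isotypic_of_typesLE {A : Type w} {B : Type w'} [L.Structure A] [L.Structure B]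
    (h1 : TypesLE L A B) (h2 : TypesLE L B A) : Isotypic L A B := by
  intro n _
  refine ⟨h1 n, fun b => ?_⟩
  obtain ⟨a, ha⟩ := h2 n b
  exact ⟨a, fun φ => (ha φ).symm⟩

end Q202.Iso
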